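import Mathlib
import Pool.Agent.TH968.UST.Defs
import Pool.Agent.H424R3.PowDefs

/-!
# The uniform spanning tree of a recurrent unimodular random graph is a factor of iid

Definitions of the project UST (helper658, MP_688e31_pr).
-/

set_option autoImplicit false

open MeasureTheory Filter Finset
open scoped ENNReal Topology

namespace Pool.Agent.H658.UST

open Pool.Agent.TH968.UST (Conn IsSpan trees avg hit wired touch ustProb)
open Pool.Agent.H424R3.Pow (RandomRootedGraph graphSigma)

/-- the label space -/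
abbrev II : Type := unitInterval

/-! ### finite trees -/

/-- All vertices of `B` are identified. -/
def idn {V : Type} (B : Finset V) : Setoid V where
  r a b := a = b ∨ (a ∈ B ∧ b ∈ B)
  iseqv := ⟨fun _ => Or.inl rfl,
    fun h => h.elim (fun h => Or.inl h.symm) fun h => Or.inr ⟨h.2, h.1⟩,
    fun {a b c} h1 h2 => by
      rcases h1 with rfl | h1
      · exact h2
      · rcases h2 with rfl | h2
        · exact Or.inr h1
        · exact Or.inr ⟨h1.1, h2.2⟩⟩

open Classical in
/-- the edges of `G` inside `D` -/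
noncomputable def inE {V : Type} (G : SimpleGraph V) (D : Finset V) : Finset (Sym2 V) :=
  D.sym2.filter fun e => e ∈ G.edgeSet

open Classical in
/-- the vertices of `D` with a neighbour that is not related to them -/
noncomputable def bd {V : Type} (G : SimpleGraph V) (R : V → V → Prop) (D : Finset V) : Finset V :=
  D.filter fun v => ∃ w, G.Adj v w ∧ ¬ R v w

open Classical in
/-- the trees of the edges inside `D`, with the vertices of `bd G R D` identified -/
noncomputable def tr {V : Type} (G : SimpleGraph V) (R : V → V → Prop) (D : Finset V) :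
    Finset (Finset (Sym2 V)) := trees (idn (bd G R D)) (inE G D)

open Classical in
/-- `f S i`, for `S` uniform in `X` and `i` uniform in `range Y.card`, is uniform in `Y`, and it
contains `S`. -/
def IsCpl {V : Type} (X Y : Finset (Finset (Sym2 V)))
    (f : Finset (Sym2 V) → ℕ → Finset (Sym2 V)) : Prop :=
  (∀ S ∈ X, ∀ i < Y.card, f S i ∈ Y ∧ S ⊆ f S i) ∧
    ∀ T ∈ Y, ((X ×ˢ range Y.card).filter fun p => f p.1 p.2 = T).card = X.card

open Classical in
/-- a coupling for every finite structure on `ℕ` -/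
noncomputable def FF (E : Finset (Sym2 ℕ)) (B B' : Finset ℕ) :
    Finset (Sym2 ℕ) → ℕ → Finset (Sym2 ℕ) :=
  if h : ∃ f, IsCpl (trees (idn B) E) (trees (idn B') E) f then h.choose else fun S _ => S

open Classical in
/-- the rank of the label of `v` among the labels of `D` -/
noncomputable def rk {V : Type} (a : V → II) (D : Finset V) (v : V) : ℕ :=
  (D.filter fun w => a w < a v).card

open Classical in
/-- the coupling transported to `D` by the ranks of the labels `a` -/
noncomputable def up {V : Type} (G : SimpleGraph V) (a : V → II) (R R' : V → V → Prop)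
    (D : Finset V) (S : Finset (Sym2 V)) (i : ℕ) : Finset (Sym2 V) :=
  (inE G D).filter fun e => Sym2.map (rk a D) e ∈
    FF ((inE G D).image (Sym2.map (rk a D))) ((bd G R D).image (rk a D))
      ((bd G R' D).image (rk a D)) (S.image (Sym2.map (rk a D))) i

open Classical in
/-- the value of `w` at the vertex of `D` with the smallest label -/
noncomputable def lab {V : Type} (a : V → II) (D : Finset V) (w : V → II) : ℝ :=
  ∑ v ∈ D.filter (fun v => rk a D v = 0), (w v : ℝ)

/-- an index smaller than the number of the trees, uniform when the label is uniform -/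
noncomputable def ix {V : Type} (G : SimpleGraph V) (a : V → II) (R' : V → V → Prop)
    (D : Finset V) (w : V → II) : ℕ :=
  min ⌊lab a D w * ((tr G R' D).card : ℝ)⌋₊ ((tr G R' D).card - 1)

open Classical in
/-- the class of `x`, when it is finite -/
noncomputable def cl {V : Type} (R : V → V → Prop) (x : V) : Finset V :=
  if h : {y | R x y}.Finite then h.toFinset else ∅

open Classical in
/-- the increasing sequence of random forests -/
noncomputable def TT {V : Type} (G : SimpleGraph V) (P : ℕ → V → V → Prop) (a : V → II)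
    (w : V × ℕ → II) : ℕ → Set (Sym2 V)
  | 0 => ∅
  | n + 1 => {e | ∃ x, e ∈ up G a (P n) (P (n + 1)) (cl (P (n + 1)) x)
      ((inE G (cl (P (n + 1)) x)).filter fun e => e ∈ TT G P a w n)
      (ix G a (P (n + 1)) (cl (P (n + 1)) x) fun v => w (v, n))}

/-- increasing sequences of equivalence relations with finite classes, starting from equality -/
structure Nested {V : Type} (P : ℕ → V → V → Prop) : Prop where
  equiv : ∀ n, Equivalence (P n)
  fin : ∀ n x, {y | P n x y}.Finite
  zero : ∀ x y, P 0 x y ↔ x = y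
  mono : ∀ n x y, P n x y → P (n + 1) x y

/-- independent uniform labels with index set `ι` -/
noncomputable def law (ι : Type) : Measure (ι → II) :=
  Measure.infinitePi fun _ : ι => (volume : Measure II)

/-! ### random walk and partitions -/

/-- locally finite, every vertex has a neighbour -/
structure Good {V : Type} (G : SimpleGraph V) : Prop where
  fin : ∀ x, (G.neighborSet x).Finite
  nbr : ∀ x, ∃ y, G.Adj x y

/-- Simple random walk started at `o` returns to `o` almost surely. -/
def RecAt {V : Type} (G : SimpleGraph V) (o : V) : Prop :=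
  (∃ w, G.Adj o w) → ⨆ n, avg G (hit G o n) o = 1

open Classical in
/-- the expected number of the visits to `s` before time `N` of simple random walk started at `x` -/
noncomputable def occ {V : Type} (G : SimpleGraph V) (s : V) : ℕ → V → ℝ≥0∞
  | 0, _ => 0
  | n + 1, x => (if x = s then 1 else 0) + avg G (occ G s n) x

/-- the `ℓ¹` distance of the averaged laws of the walks started at `x` and at `y` -/
noncomputable def tv {V : Type} (G : SimpleGraph V) (N : ℕ) (x y : V) : ℝ≥0∞ :=
  (∑' s, ((occ G s N x - occ G s N y) + (occ G s N y - occ G s N x))) / N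

/-- the seeds that capture `x` -/
def thr {V : Type} (G : SimpleGraph V) (K N : ℕ) (t : V → II) (x : V) : Set V :=
  {s | ENNReal.ofReal (t s) < K * (occ G s N x / N)}

/-- `x` and `y` are captured by the same nonempty set of seeds, or are equal -/
def QQ {V : Type} (G : SimpleGraph V) (K N : ℕ) (t : V → II) (x y : V) : Prop :=
  x = y ∨ (thr G K N t x = thr G K N t y ∧ (thr G K N t x).Nonempty)

open Classical in
/-- bound for the probability that some edge at `x` is cut -/
noncomputable def bad {V : Type} (G : SimpleGraph V) (n N : ℕ) (x : V) : ℝ≥0∞ :=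
  min 1 (∑' y, if G.Adj x y then n * tv G N x y else 0)

/-- the nested partitions -/
def PP {V : Type} (G : SimpleGraph V) (NN : ℕ → ℕ) (u : V × ℕ → II) (n : ℕ) (x y : V) : Prop :=
  x = y ∨ (n ≠ 0 ∧ ∀ m, n ≤ m → QQ G m (NN m) (fun s => u (s, m + 1)) x y)

/-- the random tree -/
noncomputable def tree {V : Type} (NN : ℕ → ℕ) (G : SimpleGraph V) (u w : V × ℕ → II) :
    Set (Sym2 V) :=
  {e | ∃ n, e ∈ TT G (PP G NN u) (fun v => u (v, 0)) w n}

/-! ### the statements of the jobs -/

/-- HALL: monotone coupling of the uniform spanning trees with more and with fewer identified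
vertices (Feder-Mihail domination `TH830.J74.dom` with `TH830.J73.RM`, and Hall's theorem). -/
def S_HALL : Prop := ∀ (V : Type) (E : Finset (Sym2 V)) (B B' : Finset V), B' ⊆ B →
  ∃ f, IsCpl (trees (idn B) E) (trees (idn B') E) f

open Classical in
/-- PROD: when all boundaries of the classes in `D` are identified, the trees of `D` are the unions
of trees of the classes. -/
def S_PROD : Prop := ∀ (V : Type) (G : SimpleGraph V) (R : V → V → Prop), Equivalence R →
  (∀ x, {y | R x y}.Finite) → ∀ D : Finset V, (∀ x ∈ D, ∀ y, R x y → y ∈ D) →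
  (∀ S : Finset (Sym2 V), S ∈ tr G R D ↔
    (∀ e ∈ S, ∃ x ∈ D, e ∈ inE G (cl R x)) ∧
      ∀ x ∈ D, (S.filter fun e => e ∈ inE G (cl R x)) ∈ tr G R (cl R x)) ∧
  (tr G R D).card = ∏ C ∈ D.image (cl R), (tr G R C).card

/-- UP: `up` is a coupling. -/
def S_UP : Prop := ∀ (V : Type) (G : SimpleGraph V) (a : V → II), Function.Injective a →
  ∀ R R' : V → V → Prop, (∀ x y, R x y → R' x y) → ∀ D : Finset V,
  IsCpl (tr G R D) (tr G R' D) (up G a R R' D)

open Classical in
/-- DET: deterministic properties of the forests. -/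
def S_DET : Prop := ∀ (V : Type) (G : SimpleGraph V) (P : ℕ → V → V → Prop), Nested P →
  ∀ a : V → II, Function.Injective a → ∀ (w : V × ℕ → II) (n : ℕ),
  (∀ x, ((inE G (cl (P n) x)).filter fun e => e ∈ TT G P a w n) ∈ tr G (P n) (cl (P n) x)) ∧
  TT G P a w n ⊆ TT G P a w (n + 1) ∧
  (∀ e ∈ TT G P a w n, ∃ x, e ∈ inE G (cl (P n) x)) ∧
  (∀ x, ((inE G (cl (P (n + 1)) x)).filter fun e => e ∈ TT G P a w (n + 1)) =
    up G a (P n) (P (n + 1)) (cl (P (n + 1)) x)
      ((inE G (cl (P (n + 1)) x)).filter fun e => e ∈ TT G P a w n)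
      (ix G a (P (n + 1)) (cl (P (n + 1)) x) fun v => w (v, n))) ∧
  (∀ (w' : V × ℕ → II) (x : V), (∀ y, P n x y → ∀ k < n, w (y, k) = w' (y, k)) →
    ∀ e ∈ inE G (cl (P n) x), e ∈ TT G P a w n ↔ e ∈ TT G P a w' n)

open Classical in
/-- LAW: on a class of the `n`-th partition the forest is a uniform tree. -/
def S_LAW : Prop := ∀ (V : Type) [Countable V] (G : SimpleGraph V) (P : ℕ → V → V → Prop),
  Nested P → ∀ a : V → II, Function.Injective a → ∀ (n : ℕ) (x : V),
  (∀ e, MeasurableSet {w : V × ℕ → II | e ∈ TT G P a w n}) ∧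
  ∀ S ∈ tr G (P n) (cl (P n) x),
    law (V × ℕ) {w | ((inE G (cl (P n) x)).filter fun e => e ∈ TT G P a w n) = S} =
      ((tr G (P n) (cl (P n) x)).card : ℝ≥0∞)⁻¹

/-- LIM: the limit that defines the wired uniform spanning forest exists. -/
def S_LIM : Prop := ∀ (V : Type) (G : SimpleGraph V), (∀ x, (G.neighborSet x).Finite) →
  ∀ F A : Finset (Sym2 V), ∃ L : ℝ,
    Tendsto (fun B : Finset V => ustProb (wired B) (touch G B) (F : Set (Sym2 V)) A) atTop (𝓝 L)

open Classical in
/-- INN: identifying the inner boundary of `D` is the same as identifying everything outside of the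
interior of `D`. -/
def S_INN : Prop := ∀ (V : Type) (G : SimpleGraph V), G.Connected →
  (∀ x, (G.neighborSet x).Finite) → ∀ (R : V → V → Prop) (D : Finset V), D.Nonempty →
  (∀ x ∈ D, ∀ y, R x y ↔ y ∈ D) → ∀ F A : Finset (Sym2 V),
  ustProb (wired (D \ bd G R D)) (touch G (D \ bd G R D)) (F : Set (Sym2 V)) A =
    (((tr G R D).filter fun T => T ∩ F = A).card : ℝ) / ((tr G R D).card : ℝ)

/-- RW1: total mass and finite support. -/
def S_RW1 : Prop := ∀ (V : Type) (G : SimpleGraph V), Good G → ∀ (N : ℕ) (x : V),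
  ∑' s, occ G s N x = N ∧ {s | occ G s N x ≠ 0}.Finite ∧ {y | occ G x N y ≠ 0}.Finite

/-- RW2: the averaged laws started at adjacent vertices merge. -/
def S_RW2 : Prop := ∀ (V : Type) (G : SimpleGraph V), Good G → ∀ x y, G.Adj x y → RecAt G y →
  Tendsto (fun N => tv G N x y) atTop (𝓝 0)

/-- CUT: the probability that `x` and `y` are separated. -/
def S_CUT : Prop := ∀ (V : Type) [Countable V] (G : SimpleGraph V), Good G →
  ∀ (K N : ℕ), 1 ≤ N → ∀ x y : V,
  law V {t | ¬ QQ G K N t x y} ≤ K * tv G N x y + ENNReal.ofReal (Real.exp (-(K : ℝ)))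

/-- ROOT: what happens almost surely at the root happens at all vertices. -/
def S_ROOT : Prop := ∀ (V : Type) [Countable V] (Ω : Type) [MeasurableSpace Ω] (P : Measure Ω)
  [IsProbabilityMeasure P] (X : RandomRootedGraph V P), X.Unimodular →
  ∀ A : SimpleGraph V → V → Prop,
  (∀ x, @MeasurableSet _ (graphSigma V) {G | A G x}) →
  (∀ (G G' : SimpleGraph V) (φ : G ≃g G') (x : V), A G x ↔ A G' (φ x)) →
  (∀ᵐ ω ∂P, A (X.graph ω) (X.root ω)) → ∀ᵐ ω ∂P, ∀ x, A (X.graph ω) x

/-- MB: measurability and invariance of `bad` and of recurrence. -/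
def S_MB : Prop := ∀ (V : Type) [Countable V],
  (∀ (n N : ℕ) (x : V), @Measurable _ _ (graphSigma V) _ fun G => bad G n N x) ∧
  (∀ x : V, @MeasurableSet _ (graphSigma V) {G | RecAt G x}) ∧
  ∀ (G G' : SimpleGraph V) (φ : G ≃g G') (x : V),
    (∀ n N, bad G' n N (φ x) = bad G n N x) ∧ (RecAt G x ↔ RecAt G' (φ x))

/-- NN: choice of the parameters. -/
def S_NN : Prop := ∀ (V : Type) [Countable V] (Ω : Type) [MeasurableSpace Ω] (P : Measure Ω)
  [IsProbabilityMeasure P] (X : RandomRootedGraph V P), Nontrivial V → X.Unimodular →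
  (∀ᵐ ω ∂P, RecAt (X.graph ω) (X.root ω)) →
  ∃ NN : ℕ → ℕ, (∀ n, 1 ≤ NN n) ∧ ∀ᵐ ω ∂P, ∀ x, ∑' n, bad (X.graph ω) n (NN n) x ≠ ⊤

/-- NEST: the partitions are nested with finite classes. -/
def S_NEST : Prop := ∀ (V : Type) (G : SimpleGraph V), Good G → ∀ (NN : ℕ → ℕ),
  ∀ u : V × ℕ → II, Nested (PP G NN u)

/-- BC: almost surely every edge is eventually inside of a class. -/
def S_BC : Prop := ∀ (V : Type) [Countable V] (G : SimpleGraph V), Good G →
  ∀ NN : ℕ → ℕ, (∀ n, 1 ≤ NN n) → (∀ x, ∑' n, bad G n (NN n) x ≠ ⊤) →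
  ∀ᵐ u ∂(law (V × ℕ)), ∀ x y, G.Adj x y → ∃ n, PP G NN u n x y

/-- MEAS: joint measurability. -/
def S_MEAS : Prop := ∀ (V : Type) [Countable V] (NN : ℕ → ℕ) (e : Sym2 V),
  @MeasurableSet (SimpleGraph V × (V × ℕ → II) × (V × ℕ → II))
    (@Prod.instMeasurableSpace _ _ (graphSigma V) _) {p | e ∈ tree NN p.1 p.2.1 p.2.2}

/-- EQV: equivariance. -/
def S_EQV : Prop := ∀ (V : Type) (NN : ℕ → ℕ) (G G' : SimpleGraph V) (φ : G ≃g G')
  (u w : V × ℕ → II), tree NN G' (fun p => u (φ.symm p.1, p.2)) (fun p => w (φ.symm p.1, p.2)) =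
    Sym2.map φ '' tree NN G u w

/-- SPLIT: one uniform label is as good as two sequences of labels. -/
def S_SPLIT : Prop := ∃ f₁ f₂ : II → ℕ → II, Measurable f₁ ∧ Measurable f₂ ∧
  ∀ (V : Type) [Countable V], (law V).map (fun U =>
    ((fun p : V × ℕ => f₁ (U p.1) p.2), (fun p : V × ℕ => f₂ (U p.1) p.2))) =
      (law (V × ℕ)).prod (law (V × ℕ))

end Pool.Agent.H658.UST
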